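import Pool.Agent.Helper59.LUC.Goals

set_option autoImplicit false

open Polynomial

namespace Pool.Agent.Helper59.LUC
namespace PkSP

lemma transfer {K : Type*} [Field K] [CharZero K] {r : ℕ} (hr : 0 < r) {z z' : K}
    (hz : IsPrimitiveRoot z r) (hz' : IsPrimitiveRoot z' r) (g : ℚ[X]) (h : aeval z g = 0) :
    aeval z' g = 0 := by
  have h1 : minpoly ℚ z ∣ g := minpoly.dvd ℚ z h
  rw [← cyclotomic_eq_minpoly_rat hz hr, cyclotomic_eq_minpoly_rat hz' hr] at h1
  exact aeval_eq_zero_of_dvd_aeval_eq_zero h1 (minpoly.aeval _ _)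

lemma conj_aeval (f : ℚ[X]) (z : ℂ) :
    aeval ((starRingEnd ℂ) z) f = (starRingEnd ℂ) (aeval z f) := by
  have h := Polynomial.aeval_algHom_apply
    ((Complex.conjAe.restrictScalars ℚ : ℂ ≃ₐ[ℚ] ℂ) : ℂ →ₐ[ℚ] ℂ) z f
  simpa using h

lemma conj_root {r : ℕ} (hr : r ≠ 0) {z : ℂ} (hz : IsPrimitiveRoot z r) :
    (starRingEnd ℂ) z = z⁻¹ := by
  have h1 : ‖z‖ = 1 := hz.norm'_eq_one hr
  rw [Complex.inv_def, Complex.normSq_eq_norm_sq, h1]
  simp

lemma conj_s {d : ℕ} (hd : 1 ≤ d) {s : ℂ} (hs : s ^ 2 = -(d : ℂ)) : (starRingEnd ℂ) s = -s := by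
  have hdR : (0 : ℝ) < d := by exact_mod_cast hd
  have hre := congrArg Complex.re hs
  have him := congrArg Complex.im hs
  simp [pow_two] at hre him
  have h0 : s.re = 0 := by
    by_contra hne
    have him2 : s.re * s.im = 0 := by linarith
    have h1 : s.im = 0 := (mul_eq_zero.mp him2).resolve_left hne
    rw [h1] at hre
    nlinarith [mul_self_nonneg s.re]
  apply Complex.ext
  · simp [h0]
  · simp

lemma s_ne {d : ℕ} (hd : 1 ≤ d) {s : ℂ} (hs : s ^ 2 = -(d : ℂ)) : s ≠ 0 := by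
  rintro rfl
  have : (d : ℂ) = 0 := by
    have := hs
    simp at this
    exact_mod_cast this
  have : d = 0 := by exact_mod_cast this
  omega

section main

variable {r : ℕ} {d : ℕ} {s ζ : ℂ} {f : ℚ[X]}

lemma sq_all (hr : 0 < r) (hζ : IsPrimitiveRoot ζ r) (hs : s ^ 2 = -(d : ℂ))
    (hf : aeval ζ f = s) {z : ℂ} (hz : IsPrimitiveRoot z r) : (aeval z f) ^ 2 = -(d : ℂ) := by
  have h1 : aeval ζ (f ^ 2 + C (d : ℚ)) = 0 := by
    simp [hf, hs]
  have h2 := transfer hr hζ hz _ h1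
  simp at h2
  linear_combination h2

lemma pm (hr : 0 < r) (hζ : IsPrimitiveRoot ζ r) (hs : s ^ 2 = -(d : ℂ))
    (hf : aeval ζ f = s) {z : ℂ} (hz : IsPrimitiveRoot z r) : aeval z f = s ∨ aeval z f = -s := by
  have h1 := sq_all hr hζ hs hf hz
  rw [← hs] at h1
  exact sq_eq_sq_iff_eq_or_eq_neg.mp h1

lemma inv_val (hr : 0 < r) (hd : 1 ≤ d) (hζ : IsPrimitiveRoot ζ r) (hs : s ^ 2 = -(d : ℂ))
    (hf : aeval ζ f = s) {z : ℂ} (hz : IsPrimitiveRoot z r) : aeval z⁻¹ f = - aeval z f := by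
  rw [← conj_root hr.ne' hz, conj_aeval]
  rcases pm hr hζ hs hf hz with h | h
  · rw [h, conj_s hd hs]
  · rw [h, map_neg, conj_s hd hs]

open Classical in
/-- the set O -/
noncomputable def OO (r : ℕ) (f : ℚ[X]) (s : ℂ) : Finset ℂ :=
  (primitiveRoots r ℂ).filter (fun z => aeval z f = s)

lemma mem_OO (hr : 0 < r) {z : ℂ} : z ∈ OO r f s ↔ IsPrimitiveRoot z r ∧ aeval z f = s := by
  classical
  simp [OO, mem_primitiveRoots hr]

lemma half (hr : 0 < r) (hd : 1 ≤ d) (hζ : IsPrimitiveRoot ζ r) (hs : s ^ 2 = -(d : ℂ))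
    (hf : aeval ζ f = s) : Half r (OO r f s) := by
  have hs0 := s_ne hd hs
  have hneg : -s ≠ s := by
    intro h
    apply hs0
    have : (2 : ℂ) * s = 0 := by linear_combination -h
    simpa using this
  refine ⟨fun z hz => ((mem_OO hr).mp hz).1, ?_, ?_⟩
  · intro z hz
    rw [mem_OO hr, mem_OO hr]
    have hi : IsPrimitiveRoot z⁻¹ r := hz.inv
    have hv := inv_val hr hd hζ hs hf hz
    constructor
    · rintro ⟨_, h1⟩ ⟨_, h2⟩
      rw [hv, h1] at h2
      exact hneg h2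
    · intro h
      refine ⟨hz, ?_⟩
      rcases pm hr hζ hs hf hz with h1 | h1
      · exact h1
      · exfalso
        apply h
        refine ⟨hi, ?_⟩
        rw [hv, h1, neg_neg]
  · intro a ha
    have hza : IsPrimitiveRoot (ζ ^ a) r := hζ.pow_of_coprime a ha
    rcases pm hr hζ hs hf hza with h1 | h1
    · left
      intro z hz
      rw [mem_OO hr] at hz ⊢
      refine ⟨hz.1.pow_of_coprime a ha, ?_⟩
      have h2 : aeval ζ (f.comp (X ^ a) - f) = 0 := by
        simp [aeval_comp, h1, hf]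
      have h3 := transfer hr hζ hz.1 _ h2
      simp [aeval_comp] at h3
      rw [← hz.2]
      linear_combination h3
    · right
      intro z hz
      rw [mem_OO hr] at hz ⊢
      have hp : IsPrimitiveRoot (z ^ a) r := hz.1.pow_of_coprime a ha
      refine ⟨hp.inv, ?_⟩
      rw [inv_val hr hd hζ hs hf hp]
      have h2 : aeval ζ (f.comp (X ^ a) + f) = 0 := by
        simp [aeval_comp, h1, hf]
      have h3 := transfer hr hζ hz.1 _ h2
      simp [aeval_comp] at h3
      rw [← hz.2]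
      linear_combination -h3

/-- rationality -/
lemma rat (hr : 0 < r) (hd : 1 ≤ d) (hζ : IsPrimitiveRoot ζ r) (hs : s ^ 2 = -(d : ℂ))
    (hf : aeval ζ f = s) (T M m' : ℤ) (lam lam' : ℂ) (hl : 2 * lam = T + m' * s)
    (hl' : 2 * lam' = T - m' * s) :
    ∃ q : ℚ, (q : ℂ) = ∏ z ∈ OO r f s, (2 * (M : ℂ) - z⁻¹ * lam - z * lam') := by
  classical
  have : NeZero r := ⟨hr.ne'⟩
  let K := IntermediateField.adjoin ℚ {ζ}
  have hcyc : IsCyclotomicExtension {r} ℚ K := by
    change IsCyclotomicExtension {r} ℚ (IntermediateField.adjoin ℚ {ζ}).toSubalgebra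
    have hζint : IsIntegral ℚ ζ := (hζ.isIntegral hr).tower_top
    rw [IntermediateField.adjoin_simple_toSubalgebra_of_isAlgebraic hζint.isAlgebraic]
    exact hζ.adjoin_isCyclotomicExtension ℚ
  have := hcyc
  have : IsGalois ℚ K := IsCyclotomicExtension.isGalois {r} ℚ K
  have : FiniteDimensional ℚ K := IsCyclotomicExtension.finiteDimensional {r} ℚ K
  have hζK : ζ ∈ K := IntermediateField.mem_adjoin_simple_self ℚ ζ
  have hKpow : ∀ z : ℂ, IsPrimitiveRoot z r → z ∈ K := by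
    intro z hz
    obtain ⟨i, _, hi⟩ := hζ.eq_pow_of_pow_eq_one hz.pow_eq_one
    rw [← hi]
    exact pow_mem hζK i
  have hinj : Function.Injective (fun x : K => (x : ℂ)) := Subtype.val_injective
  let sK : K := aeval (⟨ζ, hζK⟩ : K) f
  have hval : ∀ x : K, ((aeval x f : K) : ℂ) = aeval (x : ℂ) f := by
    intro x
    have h := Polynomial.aeval_algHom_apply (K.val) x f
    simpa using h.symm
  have hsK : (sK : ℂ) = s := by
    rw [hval]
    exact hf
  have hsK2 : sK ^ 2 = -(d : K) := by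
    apply hinj
    simp only
    push_cast
    rw [hsK, hs]
  let OK : Finset K := (primitiveRoots r K).filter (fun z => aeval z f = sK)
  have hprimK : ∀ z : K, IsPrimitiveRoot z r ↔ IsPrimitiveRoot (z : ℂ) r := by
    intro z
    have h := IsPrimitiveRoot.coe_submonoidClass_iff (M := ℂ) (B := IntermediateField ℚ ℂ) (N := K)
      (ζ := z) (k := r)
    exact h.symm
  have hmem : ∀ z : K, z ∈ OK ↔ (z : ℂ) ∈ OO r f s := by
    intro z
    rw [mem_OO hr]
    simp only [OK, Finset.mem_filter, mem_primitiveRoots hr, hprimK z]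
    rw [← hval z, ← hsK]
    constructor
    · rintro ⟨h1, h2⟩
      exact ⟨h1, by rw [h2]⟩
    · rintro ⟨h1, h2⟩
      exact ⟨h1, hinj h2⟩
  let lK : K := ((T : K) + m' * sK) / 2
  let lK' : K := ((T : K) - m' * sK) / 2
  have hlK : (lK : ℂ) = lam := by
    have : (lK : ℂ) = ((T : ℂ) + m' * (sK : ℂ)) / 2 := by
      simp only [lK]
      push_cast
      rfl
    rw [this, hsK, ← hl]
    ring
  have hlK' : (lK' : ℂ) = lam' := by
    have : (lK' : ℂ) = ((T : ℂ) - m' * (sK : ℂ)) / 2 := by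
      simp only [lK']
      push_cast
      rfl
    rw [this, hsK, ← hl']
    ring
  let AK : K := ∏ z ∈ OK, (2 * (M : K) - z⁻¹ * lK - z * lK')
  have hAK : (AK : ℂ) = ∏ z ∈ OO r f s, (2 * (M : ℂ) - z⁻¹ * lam - z * lam') := by
    have h1 : (AK : ℂ) = ∏ z ∈ OK, (2 * (M : ℂ) - (z : ℂ)⁻¹ * lam - z * lam') := by
      have h2 : K.val AK = ∏ z ∈ OK, K.val (2 * (M : K) - z⁻¹ * lK - z * lK') := map_prod _ _ _
      have h3 : (AK : ℂ) = K.val AK := rfl
      rw [h3, h2]
      apply Finset.prod_congr rfl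
      intro z _
      have h4 : K.val (2 * (M : K) - z⁻¹ * lK - z * lK') = 2 * (M : ℂ) - (z : ℂ)⁻¹ * (lK : ℂ) - z * (lK' : ℂ) := by
        have h5 : K.val (2 : K) = (2 : ℂ) := map_ofNat _ 2
        rw [map_sub, map_sub, map_mul, map_mul, map_mul, h5, map_inv₀, map_intCast]
        rfl
      rw [h4, hlK, hlK']
    rw [h1]
    refine Finset.prod_bij (fun z _ => (z : ℂ)) ?_ ?_ ?_ ?_
    · intro z hz
      exact (hmem z).mp hz
    · intro a _ b _ hab
      exact hinj hab
    · intro b hb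
      have hb1 := ((mem_OO hr).mp hb).1
      refine ⟨⟨b, hKpow b hb1⟩, ?_, rfl⟩
      rw [hmem]
      exact hb
    · intro z _
      rfl
  have hfix : ∀ σ : K ≃ₐ[ℚ] K, σ AK = AK := by
    intro σ
    have hσs2 : (σ sK) ^ 2 = sK ^ 2 := by
      rw [← map_pow, hsK2]
      simp
    have hσf : ∀ z : K, aeval (σ z) f = σ (aeval z f) := by
      intro z
      have h := Polynomial.aeval_algHom_apply (σ : K →ₐ[ℚ] K) z f
      simpa using h
    have hσAK : σ AK = ∏ z ∈ OK, (2 * (M : K) - (σ z)⁻¹ * σ lK - σ z * σ lK') := by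
      simp only [AK]
      rw [map_prod]
      apply Finset.prod_congr rfl
      intro z _
      simp [map_ofNat]
    have hinvK : ∀ z : K, IsPrimitiveRoot z r → aeval z⁻¹ f = - aeval z f := by
      intro z hz
      apply hinj
      have hz' := (hprimK z).mp hz
      have h1 := inv_val hr hd hζ hs hf hz'
      simp only
      rw [hval]
      push_cast
      rw [hval]
      exact h1
    have hpr : ∀ z ∈ OK, IsPrimitiveRoot z r ∧ aeval z f = sK := by
      intro z hz
      simpa [OK, mem_primitiveRoots hr] using hz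
    have hpr' : ∀ z : K, IsPrimitiveRoot z r → aeval z f = sK → z ∈ OK := by
      intro z hz h
      simp [OK, mem_primitiveRoots hr, hz, h]
    have hσp : ∀ z : K, IsPrimitiveRoot z r → IsPrimitiveRoot (σ z) r := by
      intro z hz
      exact hz.map_of_injective (f := σ) σ.injective
    rcases sq_eq_sq_iff_eq_or_eq_neg.mp hσs2 with h1 | h1
    · -- σ s = s
      have hl1 : σ lK = lK := by simp [lK, h1, map_ofNat]
      have hl2 : σ lK' = lK' := by simp [lK', h1, map_ofNat]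
      rw [hσAK, hl1, hl2]
      have hinjOn : Set.InjOn (fun z : K => σ z) (OK : Set K) := fun a _ b _ hab => σ.injective hab
      have hmaps : ∀ z ∈ OK, σ z ∈ OK := by
        intro z hz
        obtain ⟨hz1, hz2⟩ := hpr z hz
        apply hpr' _ (hσp z hz1)
        rw [hσf, hz2, h1]
      have himg : OK.image (fun z : K => σ z) = OK := by
        apply Finset.eq_of_subset_of_card_le
        · intro w hw
          obtain ⟨z, hz, rfl⟩ := Finset.mem_image.mp hw
          exact hmaps z hz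
        · rw [Finset.card_image_of_injOn hinjOn]
      have h5 : AK = ∏ z ∈ OK.image (fun z : K => σ z), (2 * (M : K) - z⁻¹ * lK - z * lK') := by
        rw [himg]
      rw [h5, Finset.prod_image hinjOn]
    · -- σ s = - s
      have hl1 : σ lK = lK' := by simp [lK, lK', h1, map_ofNat, sub_eq_add_neg]
      have hl2 : σ lK' = lK := by simp [lK, lK', h1, map_ofNat]
      rw [hσAK, hl1, hl2]
      have hinjOn : Set.InjOn (fun z : K => (σ z)⁻¹) (OK : Set K) :=
        fun a _ b _ hab => σ.injective (inv_injective hab)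
      have hmaps : ∀ z ∈ OK, (σ z)⁻¹ ∈ OK := by
        intro z hz
        obtain ⟨hz1, hz2⟩ := hpr z hz
        apply hpr' _ (hσp z hz1).inv
        rw [hinvK _ (hσp z hz1), hσf, hz2, h1, neg_neg]
      have himg : OK.image (fun z : K => (σ z)⁻¹) = OK := by
        apply Finset.eq_of_subset_of_card_le
        · intro w hw
          obtain ⟨z, hz, rfl⟩ := Finset.mem_image.mp hw
          exact hmaps z hz
        · rw [Finset.card_image_of_injOn hinjOn]
      have h5 : AK = ∏ z ∈ OK.image (fun z : K => (σ z)⁻¹), (2 * (M : K) - z⁻¹ * lK - z * lK') := by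
        rw [himg]
      rw [h5, Finset.prod_image hinjOn]
      apply Finset.prod_congr rfl
      intro z _
      rw [inv_inv]
      ring
  have hbot : AK ∈ (⊥ : IntermediateField ℚ K) := (IsGalois.mem_bot_iff_fixed AK).mpr hfix
  obtain ⟨q, hq⟩ := IntermediateField.mem_bot.mp hbot
  refine ⟨q, ?_⟩
  rw [← hAK, ← hq]
  simp

/-- each product is a natural number -/
lemma nat_prod (hr : 0 < r) (hd : 1 ≤ d) (hζ : IsPrimitiveRoot ζ r) (hs : s ^ 2 = -(d : ℂ))
    (hf : aeval ζ f = s) {T M : ℤ} {η : ℂ} (hc : Ctx T M η) (m : ℤ)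
    (hm : 4 * M ^ 2 - T ^ 2 = (d : ℤ) * m ^ 2) :
    ∃ NA : ℕ, (NA : ℝ) = ∏ z ∈ OO r f s, ((M : ℝ) * ‖η - z‖ ^ 2) := by
  have h0 := hc.ne_zero
  have hadd := hc.add_inv
  have hη := hc.hη
  -- 2 lam = T ± m s
  have hmC : (4 : ℂ) * M ^ 2 - T ^ 2 = d * m ^ 2 := by exact_mod_cast hm
  have hsq : (2 * ((M : ℂ) * η) - T) ^ 2 = (m * s) ^ 2 := by
    rw [mul_pow, hs]
    linear_combination (4 * (M : ℂ)) * hη - hmC
  obtain ⟨m', hm'⟩ : ∃ m' : ℤ, 2 * ((M : ℂ) * η) = T + m' * s := by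
    rcases sq_eq_sq_iff_eq_or_eq_neg.mp hsq with h | h
    · exact ⟨m, by linear_combination h⟩
    · exact ⟨-m, by push_cast; linear_combination h⟩
  have hm'' : 2 * ((M : ℂ) * η⁻¹) = T - m' * s := by
    linear_combination 2 * hadd - hm'
  obtain ⟨q, hq⟩ := rat hr hd hζ hs hf T M m' _ _ hm' hm''
  have hprod : ((∏ z ∈ OO r f s, ((M : ℝ) * ‖η - z‖ ^ 2) : ℝ) : ℂ) =
      ∏ z ∈ OO r f s, (2 * (M : ℂ) - z⁻¹ * ((M : ℂ) * η) - z * ((M : ℂ) * η⁻¹)) := by
    rw [Complex.ofReal_prod]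
    apply Finset.prod_congr rfl
    intro z hz
    have hz1 := ((mem_OO hr).mp hz).1
    have hzn : ‖z‖ = 1 := hz1.norm'_eq_one hr.ne'
    rw [Complex.ofReal_mul, hc.normSq_sub z hzn]
    push_cast
    ring
  have hint : IsIntegral ℤ (∏ z ∈ OO r f s, (2 * (M : ℂ) - z⁻¹ * ((M : ℂ) * η) - z * ((M : ℂ) * η⁻¹))) := by
    have hIlam : IsIntegral ℤ ((M : ℂ) * η) := by
      refine ⟨X ^ 2 - C T * X + C (M ^ 2), ?_, ?_⟩
      · monicity!
      · rw [eval₂_add, eval₂_sub, eval₂_mul, eval₂_C, eval₂_C, eval₂_X, eval₂_pow, eval₂_X]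
        simp only [algebraMap_int_eq, eq_intCast, Int.cast_pow]
        linear_combination (M : ℂ) * hη
    have hIlam' : IsIntegral ℤ ((M : ℂ) * η⁻¹) := by
      have : (M : ℂ) * η⁻¹ = T - (M : ℂ) * η := by linear_combination hadd
      rw [this]
      exact (isIntegral_algebraMap (R := ℤ) (A := ℂ) (x := T)).sub hIlam
    have hIM : IsIntegral ℤ (2 * (M : ℂ)) := by
      have := isIntegral_algebraMap (R := ℤ) (A := ℂ) (x := 2 * M)
      simpa using this
    apply IsIntegral.prod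
    intro z hz
    have hz1 := ((mem_OO hr).mp hz).1
    exact (hIM.sub ((hz1.inv.isIntegral hr).mul hIlam)).sub ((hz1.isIntegral hr).mul hIlam')
  rw [← hq] at hint hprod
  have hint' : IsIntegral ℤ q := by
    have h1 : IsIntegral ℤ (algebraMap ℚ ℂ q) := by simpa using hint
    exact (isIntegral_algebraMap_iff (algebraMap ℚ ℂ).injective).mp h1
  obtain ⟨n, hn⟩ := IsIntegrallyClosed.isIntegral_iff.mp hint'
  have hn' : (n : ℚ) = q := by simpa using hn
  have hreal : (∏ z ∈ OO r f s, ((M : ℝ) * ‖η - z‖ ^ 2) : ℝ) = (n : ℝ) := by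
    have : ((∏ z ∈ OO r f s, ((M : ℝ) * ‖η - z‖ ^ 2) : ℝ) : ℂ) = ((n : ℝ) : ℂ) := by
      rw [hprod, ← hn']
      simp
    exact_mod_cast this
  have hnn : 0 ≤ (∏ z ∈ OO r f s, ((M : ℝ) * ‖η - z‖ ^ 2) : ℝ) := by
    apply Finset.prod_nonneg
    intro z _
    exact mul_nonneg hc.MR.le (by positivity)
  have hn0 : 0 ≤ n := by
    rw [hreal] at hnn
    exact_mod_cast hnn
  refine ⟨n.toNat, ?_⟩
  rw [hreal]
  have : ((n.toNat : ℤ)) = n := Int.toNat_of_nonneg hn0
  exact_mod_cast this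

end main

lemma ctx_inv {T M : ℤ} {η : ℂ} (hc : Ctx T M η) : Ctx T M η⁻¹ := by
  have h0 := hc.ne_zero
  refine ⟨hc.hM, hc.hTM, hc.hlt, ?_, ?_⟩
  · have h1 := hc.hη
    field_simp
    linear_combination h1
  · intro n hn h
    apply hc.hru n hn
    rw [inv_pow] at h
    exact inv_eq_one.mp h

theorem thm : G_SP := by
  intro T M η hc m d _ hd hmd r hr3 ζ s hζ hs hsmem
  have hr : 0 < r := by omega
  have : NeZero r := ⟨hr.ne'⟩
  have hζint : IsIntegral ℚ ζ := (hζ.isIntegral hr).tower_top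
  have hsub := IntermediateField.adjoin_simple_toSubalgebra_of_isAlgebraic (F := ℚ) hζint.isAlgebraic
  have hs1 : s ∈ Algebra.adjoin ℚ ({ζ} : Set ℂ) := by
    rw [← hsub]
    exact hsmem
  rw [Algebra.adjoin_singleton_eq_range_aeval] at hs1
  obtain ⟨f, hf⟩ := hs1
  have hf' : aeval ζ f = s := hf
  obtain ⟨NA, hNA⟩ := nat_prod hr hd hζ hs hf' hc m hmd
  obtain ⟨NB, hNB⟩ := nat_prod hr hd hζ hs hf' (ctx_inv hc) m hmd
  refine ⟨OO r f s, half hr hd hζ hs hf', NA, NB, hNA, ?_⟩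
  rw [hNB]
  apply Finset.prod_congr rfl
  intro z hz
  have hz1 := ((mem_OO hr).mp hz).1
  have h1 : ‖η⁻¹ - z‖ = ‖η - z⁻¹‖ := by
    rw [← hc.conj_eq, ← conj_root hr.ne' hz1]
    have h2 : (starRingEnd ℂ) η - z = (starRingEnd ℂ) (η - (starRingEnd ℂ) z) := by
      simp
    rw [h2, Complex.norm_conj]
  rw [h1]

end PkSP
end Pool.Agent.Helper59.LUC
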